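import Pool.Agent.E8helper43.ER.Stm

/-!
# ER, piece S_TENT
-/

set_option autoImplicit false

namespace Pool.Agent.E8helper73.ER

open Finset Pool.Agent.E8helper43.ER

/-- the tent function -/
noncomputable def phi (T x : ℝ) : ℝ := max (T - |x - T|) 0

lemma phi_lip (T x y : ℝ) : |phi T x - phi T y| ≤ |x - y| := by
  unfold phi
  refine (abs_max_sub_max_le_abs _ _ _).trans ?_
  have e : (T - |x - T|) - (T - |y - T|) = -(|x - T| - |y - T|) := by ring
  rw [e, abs_neg]
  refine (abs_abs_sub_abs_le _ _).trans (le_of_eq ?_)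
  congr 1
  ring

lemma phi_up {T x : ℝ} (h0 : 0 ≤ x) (h1 : x ≤ T) : phi T x = x := by
  unfold phi
  rw [abs_of_nonpos (by linarith), max_eq_left (by linarith)]
  ring

lemma phi_down {T x : ℝ} (h0 : T ≤ x) (h1 : x ≤ 2 * T) : phi T x = 2 * T - x := by
  unfold phi
  rw [abs_of_nonneg (by linarith), max_eq_left (by linarith)]
  ring

lemma phi_neg {T x : ℝ} (hT : 0 ≤ T) (h : x ≤ 0) : phi T x = 0 := by
  unfold phi
  rw [abs_of_nonpos (by linarith), max_eq_right (by linarith)]

lemma phi_big {T x : ℝ} (hT : 0 ≤ T) (h : 2 * T ≤ x) : phi T x = 0 := by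
  unfold phi
  rw [abs_of_nonneg (by linarith), max_eq_right (by linarith)]

lemma shift_eq (T : ℕ) (i l : ℕ) :
    (if i ≤ l then phi T ((l - i : ℕ) : ℝ) else 0) = phi T ((l : ℝ) - i) := by
  split_ifs with h
  · rw [Nat.cast_sub h]
  · have : (l : ℝ) ≤ i := by exact_mod_cast (not_le.1 h).le
    rw [phi_neg (Nat.cast_nonneg T) (by linarith)]

/-- **TENT** -/
theorem t_TENT : S_TENT := by
  intro n ε hε
  obtain ⟨T, hT⟩ := exists_nat_gt (max (n : ℝ) ((4 * n + 1) * n ^ 2 / (2 * ε)))
  have hTn : (n : ℝ) < T := lt_of_le_of_lt (le_max_left _ _) hT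
  have hTe : (4 * n + 1) * (n : ℝ) ^ 2 / (2 * ε) < T := lt_of_le_of_lt (le_max_right _ _) hT
  have hn0 : (0 : ℝ) ≤ n := Nat.cast_nonneg n
  have hT0 : (0 : ℝ) < T := lt_of_le_of_lt hn0 hTn
  refine ⟨2 * T + 1, fun l => phi T l, 1 / (2 * T), by positivity, ?_, ?_⟩
  · intro l hl
    have : (2 * (T : ℝ)) ≤ l := by
      have h1 : 2 * T ≤ l := by omega
      exact_mod_cast h1
    exact phi_big hT0.le this
  · intro i j hi hj
    have hi' : (i : ℝ) ≤ n := by exact_mod_cast hi
    have hj' : (j : ℝ) ≤ n := by exact_mod_cast hj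
    have hi0 : (0 : ℝ) ≤ i := Nat.cast_nonneg i
    have hj0 : (0 : ℝ) ≤ j := Nat.cast_nonneg j
    have hsh : shD n (2 * T + 1) (fun l => phi T l) i j =
        ∑ l ∈ range (n + (2 * T + 1)), (phi T ((l : ℝ) - i) - phi T ((l : ℝ) - j)) ^ 2 := by
      unfold shD
      refine Finset.sum_congr rfl fun l _ => ?_
      simp only [shift_eq]
    set s2 : ℝ := ((i : ℝ) - j) ^ 2 with hs2
    have hs20 : 0 ≤ s2 := sq_nonneg _
    have hs2n : s2 ≤ (n : ℝ) ^ 2 := by
      rw [hs2]
      apply sq_le_sq'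
      · linarith
      · linarith
    let bad : ℕ → Prop := fun l => l < n ∨ (T < l ∧ l < T + n) ∨ 2 * T < l
    have hterm : ∀ l ∈ range (n + (2 * T + 1)),
        |(phi T ((l : ℝ) - i) - phi T ((l : ℝ) - j)) ^ 2 - s2| ≤
          if bad l then s2 else 0 := by
      intro l _
      split_ifs with hb
      · have h1 := phi_lip T ((l : ℝ) - i) ((l : ℝ) - j)
        have h2 : (phi T ((l : ℝ) - i) - phi T ((l : ℝ) - j)) ^ 2 ≤ s2 := by
          rw [← sq_abs, hs2, ← sq_abs ((i : ℝ) - j)]
          have e : |(l : ℝ) - i - ((l : ℝ) - j)| = |(i : ℝ) - j| := by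
            rw [← abs_neg]
            congr 1
            ring
          rw [e] at h1
          exact pow_le_pow_left₀ (abs_nonneg _) h1 2
        have h3 : 0 ≤ (phi T ((l : ℝ) - i) - phi T ((l : ℝ) - j)) ^ 2 := sq_nonneg _
        rw [abs_le]
        constructor <;> linarith
      · have hb' : ¬ (l < n ∨ (T < l ∧ l < T + n) ∨ 2 * T < l) := hb
        push Not at hb'
        obtain ⟨h1, h2, h3⟩ := hb'
        have hl1 : (n : ℝ) ≤ l := by exact_mod_cast h1
        have hl3 : (l : ℝ) ≤ 2 * T := by exact_mod_cast h3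
        rcases le_or_gt l T with h | h
        · have hl : (l : ℝ) ≤ T := by exact_mod_cast h
          rw [phi_up (by linarith) (by linarith), phi_up (by linarith) (by linarith)]
          have : ((l : ℝ) - i - ((l : ℝ) - j)) ^ 2 - s2 = 0 := by rw [hs2]; ring
          rw [this, abs_zero]
        · have hl : (T : ℝ) + n ≤ l := by exact_mod_cast h2 h
          rw [phi_down (by linarith) (by linarith), phi_down (by linarith) (by linarith)]
          have : (2 * (T : ℝ) - ((l : ℝ) - i) - (2 * (T : ℝ) - ((l : ℝ) - j))) ^ 2 - s2 = 0 := by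
            rw [hs2]; ring
          rw [this, abs_zero]
    classical
    have hcard : ((range (n + (2 * T + 1))).filter bad).card ≤ 3 * n := by
      have hsub : (range (n + (2 * T + 1))).filter bad ⊆
          (range n ∪ Finset.Ioo T (T + n)) ∪ Finset.Ioo (2 * T) (n + (2 * T + 1)) := by
        intro l hl
        rw [Finset.mem_filter, Finset.mem_range] at hl
        obtain ⟨h1, h2⟩ := hl
        have h2' : l < n ∨ (T < l ∧ l < T + n) ∨ 2 * T < l := h2
        simp only [Finset.mem_union, Finset.mem_range, Finset.mem_Ioo]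
        omega
      refine (Finset.card_le_card hsub).trans ?_
      refine (Finset.card_union_le _ _).trans ?_
      have h1 := Finset.card_union_le (range n) (Finset.Ioo T (T + n))
      rw [Finset.card_range, Nat.card_Ioo] at h1
      rw [Nat.card_Ioo]
      omega
    have hsum : |∑ l ∈ range (n + (2 * T + 1)),
        ((phi T ((l : ℝ) - i) - phi T ((l : ℝ) - j)) ^ 2 - s2)| ≤ 3 * n * s2 := by
      refine (Finset.abs_sum_le_sum_abs _ _).trans ?_
      refine (Finset.sum_le_sum hterm).trans ?_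
      rw [← Finset.sum_filter, Finset.sum_const, nsmul_eq_mul]
      have : (((range (n + (2 * T + 1))).filter bad).card : ℝ) ≤ 3 * n := by exact_mod_cast hcard
      exact mul_le_mul_of_nonneg_right this hs20
    rw [Finset.sum_sub_distrib, Finset.sum_const, Finset.card_range, nsmul_eq_mul] at hsum
    push_cast at hsum
    rw [hsh]
    set Sg : ℝ := ∑ l ∈ range (n + (2 * T + 1)),
      (phi T ((l : ℝ) - i) - phi T ((l : ℝ) - j)) ^ 2 with hSg
    have h2T : (0 : ℝ) < 2 * T := by linarith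
    have e : 1 / (2 * (T : ℝ)) * Sg - s2 = (Sg - 2 * T * s2) / (2 * T) := by
      field_simp
    rw [e, abs_div, abs_of_pos h2T, div_le_iff₀ h2T]
    have h5 : (4 * n + 1) * (n : ℝ) ^ 2 < T * (2 * ε) := (div_lt_iff₀ (by linarith)).1 hTe
    have h6 : (4 * (n : ℝ) + 1) * s2 ≤ (4 * n + 1) * (n : ℝ) ^ 2 :=
      mul_le_mul_of_nonneg_left hs2n (by linarith)
    rw [abs_le] at hsum ⊢
    obtain ⟨h7, h8⟩ := hsum
    have h9 : 0 ≤ ((n : ℝ) + 1) * s2 := mul_nonneg (by linarith) hs20
    constructor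
    · nlinarith
    · nlinarith

end Pool.Agent.E8helper73.ER
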